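import Pool.Agent.H52.OV4

set_option autoImplicit false

namespace Pool.Agent.Results.MP_035beb_an.Ellipse

/-- The determinant of two plane vectors; it vanishes exactly when nonzero vectors give the same
point of the projective line. -/
def dt (u v : ℝ × ℝ) : ℝ := u.1 * v.2 - u.2 * v.1

/-- `y` is the image of `x` under `σ_O`: the second point of `γ` on the line `Ox`, or `x` itself
when the line meets `γ` only at `x`. -/
def Sig (γ : Set (ℝ × ℝ)) (O x y : ℝ × ℝ) : Prop :=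
  y ∈ γ ∧ y ∈ affineSpan ℝ {O, x} ∧ (y ≠ x ∨ ∀ z ∈ γ, z ∈ affineSpan ℝ {O, x} → z = x)

/-- `σ_Q ∘ σ_O` is conjugate to a Mobius map by a diffeomorphism `h` of the curve onto the
projective line, written as `h (c t) = [H t]` with a smooth lift `H`. -/
def Conj (c : ℝ → ℝ × ℝ) (O Q : ℝ × ℝ) : Prop :=
  ∃ H : ℝ → ℝ × ℝ, ContDiff ℝ (⊤ : ℕ∞) H ∧ (∀ t, dt (H t) (deriv H t) ≠ 0) ∧
    (∀ s t, dt (H s) (H t) = 0 ↔ c s = c t) ∧ (∀ v, ∃ t, dt (H t) v = 0) ∧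
    ∃ m11 m12 m21 m22 : ℝ, m11 * m22 - m12 * m21 ≠ 0 ∧
      ∀ s t y, Sig (Set.range c) O (c s) y → Sig (Set.range c) Q y (c t) →
        dt (m11 * (H s).1 + m12 * (H s).2, m21 * (H s).1 + m22 * (H s).2) (H t) = 0

theorem result (K : Set (ℝ × ℝ)) (c : ℝ → ℝ × ℝ) (hK : IsCompact K) (hs : StrictConvex ℝ K)
    (hne : (interior K).Nonempty) (hc : ContDiff ℝ (⊤ : ℕ∞) c) (hp : Function.Periodic c 1)
    (hr : ∀ t, deriv c t ≠ 0) (hi : ∀ s t, c s = c t → ∃ k : ℤ, t = s + k)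
    (hf : Set.range c = frontier K)
    (H : ∀ O Q : ℝ × ℝ, O ≠ Q → O ∉ Set.range c → Q ∉ Set.range c →
      (∃ z ∈ Set.range c, z ∈ affineSpan ℝ {O, Q}) → Conj c O Q) :
    ∃ f : (ℝ × ℝ) ≃ᵃ[ℝ] (ℝ × ℝ), Set.range c = f '' {p : ℝ × ℝ | p.1 ^ 2 + p.2 ^ 2 = 1} :=
  Pool.Agent.H52.OV.final hK hs hne hc hp hr hi hf H

end Pool.Agent.Results.MP_035beb_an.Ellipse
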